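import Pool.Agent.H.MP_147277_co.B

namespace Pool.Agent.Results.MP_147277_co.Q1

/-- `π` is good: every triple `(a, b, c)`, not all equal, with `|[a + c - 2b]_n| ≤ 1` has
`|[π a + π c - 2 π b]_n| ≥ 2`; `valMinAbs` is the least absolute residue. -/
def Good (n : ℕ) (π : ZMod n ≃ ZMod n) : Prop :=
  ∀ a b c : ZMod n, ¬ (a = b ∧ b = c) → |(a + c - 2 * b).valMinAbs| ≤ 1 →
    2 ≤ |(π a + π c - 2 * π b).valMinAbs|

open Pool.Agent.H.MP_147277_co in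
theorem result : ∃ N : ℕ, ∀ n : ℕ, N ≤ n → 2 ≤ n → ∃ π : ZMod n ≃ ZMod n, Good n π := by
  obtain ⟨M, hM, hm⟩ := master
  obtain ⟨N, h⟩ := main hM hm
  refine ⟨N, fun n hn h2 => ?_⟩
  obtain ⟨m, rfl⟩ : ∃ m, n = m + 1 := ⟨n - 1, by omega⟩
  obtain ⟨π, hπ⟩ := h _ hn
  refine ⟨π, fun a b c hne h1 => ?_⟩
  by_contra h3
  refine hπ a b c hne ((C_iff (m + 1) 1 a b c).2 ⟨_, h1, (ZMod.coe_valMinAbs _).symm⟩)
    ((C_iff (m + 1) 1 (π a) (π b) (π c)).2 ⟨_, ?_, (ZMod.coe_valMinAbs _).symm⟩)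
  exact Int.lt_add_one_iff.1 (not_le.1 h3)

end Pool.Agent.Results.MP_147277_co.Q1
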